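import Pool.Agent.Q202.CPG.Defs
import Mathlib.Tactic
import Mathlib.Algebra.Order.Ring.Canonical

/-!
# Definability calculus and elementary facts about models of Peano arithmetic
-/

open FirstOrder FirstOrder.Language

namespace Q202.CPG

universe u v

variable {M : Type u} [CommSemiring M] [LinearOrder M]

/-! ### Definability -/

/-- Definability with parameters. -/
def D {ι : Type} (p : (ι → M) → Prop) : Prop := (Set.univ : Set M).Definable LPA {v | p v}

/-- Terms with parameters. -/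
def T {ι : Type} (t : (ι → M) → M) : Prop :=
  ∃ τ : LPA[[(Set.univ : Set M)]].Term ι, ∀ v, τ.realize v = t v

section

variable {ι : Type}

theorem T.var (i : ι) : T (fun v : ι → M => v i) := ⟨Term.var i, fun _ => rfl⟩

theorem T.const (a : M) : T (fun _ : ι → M => a) :=
  ⟨(LPA.con (⟨a, Set.mem_univ a⟩ : (Set.univ : Set M))).term, fun v => by
    simp [Term.realize_constants]⟩

theorem T.add {s t : (ι → M) → M} (hs : T s) (ht : T t) : T (fun v => s v + t v) := by
  obtain ⟨σ, hσ⟩ := hs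
  obtain ⟨τ, hτ⟩ := ht
  refine ⟨Functions.apply₂ ((LPA.lhomWithConstants (Set.univ : Set M)).onFunction
    (PAFunc.add : LPA.Functions 2)) σ τ, fun v => ?_⟩
  simp only [Term.realize_functions_apply₂, hσ, hτ]
  rfl

theorem T.mul {s t : (ι → M) → M} (hs : T s) (ht : T t) : T (fun v => s v * t v) := by
  obtain ⟨σ, hσ⟩ := hs
  obtain ⟨τ, hτ⟩ := ht
  refine ⟨Functions.apply₂ ((LPA.lhomWithConstants (Set.univ : Set M)).onFunction
    (PAFunc.mul : LPA.Functions 2)) σ τ, fun v => ?_⟩
  simp only [Term.realize_functions_apply₂, hσ, hτ]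
  rfl

theorem D.not {p : (ι → M) → Prop} (hp : D p) : D (fun v => ¬ p v) := by
  have h := Set.Definable.compl hp
  exact h

theorem D.and {p q : (ι → M) → Prop} (hp : D p) (hq : D q) : D (fun v => p v ∧ q v) := by
  have h := Set.Definable.inter hp hq
  exact h

theorem D.or {p q : (ι → M) → Prop} (hp : D p) (hq : D q) : D (fun v => p v ∨ q v) := by
  have h := Set.Definable.union hp hq
  exact h

theorem D.imp {p q : (ι → M) → Prop} (hp : D p) (hq : D q) : D (fun v => p v → q v) := by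
  have h := (hp.not).or hq
  refine Eq.mp (congrArg D ?_) h
  funext v
  exact propext imp_iff_not_or.symm

theorem D.ex {p : (ι → M) → M → Prop}
    (h : D (fun w : ι ⊕ Unit → M => p (fun i => w (Sum.inl i)) (w (Sum.inr ())))) :
    D (fun v => ∃ x, p v x) := by
  have h1 := Set.Definable.exists_of_finite (β := Unit) h
  refine Eq.mp (congrArg D ?_) h1
  funext v
  refine propext ⟨fun ⟨a, ha⟩ => ⟨a (), ha⟩, fun ⟨x, hx⟩ => ⟨fun _ => x, hx⟩⟩

theorem D.all {p : (ι → M) → M → Prop}
    (h : D (fun w : ι ⊕ Unit → M => p (fun i => w (Sum.inl i)) (w (Sum.inr ())))) :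
    D (fun v => ∀ x, p v x) := by
  have h1 := Set.Definable.forall_of_finite (β := Unit) h
  refine Eq.mp (congrArg D ?_) h1
  funext v
  refine propext ⟨fun h2 x => h2 fun _ => x, fun h2 a => h2 (a ())⟩

theorem D.alls {κ : Type} [Finite κ] {p : (ι → M) → (κ → M) → Prop}
    (h : D (fun w : ι ⊕ κ → M => p (fun i => w (Sum.inl i)) (fun i => w (Sum.inr i)))) :
    D (fun v => ∀ a, p v a) := by
  have h1 := Set.Definable.forall_of_finite (β := κ) h
  exact h1

theorem D.forallF {κ : Type} [Finite κ] {p : κ → (ι → M) → Prop} (h : ∀ k, D (p k)) :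
    D (fun v => ∀ k, p k v) := by
  have h1 := Set.definable_iInter_of_finite h
  refine Eq.mp (congrArg (Set.univ.Definable LPA) ?_) h1
  ext v
  simp

theorem D.existsF {κ : Type} [Finite κ] {p : κ → (ι → M) → Prop} (h : ∀ k, D (p k)) :
    D (fun v => ∃ k, p k v) := by
  have h1 := Set.definable_iUnion_of_finite h
  refine Eq.mp (congrArg (Set.univ.Definable LPA) ?_) h1
  ext v
  simp

theorem D.existsS {κ : Type*} {s : Set κ} (hs : s.Finite) {p : κ → (ι → M) → Prop}
    (h : ∀ k, D (p k)) : D (fun v => ∃ k ∈ s, p k v) := by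
  have h1 := Set.definable_biUnion_finset h hs.toFinset
  refine Eq.mp (congrArg (Set.univ.Definable LPA) ?_) h1
  ext v
  simp

theorem D.lt {s t : (ι → M) → M} (hs : T s) (ht : T t) : D (fun v => s v < t v) := by
  obtain ⟨σ, hσ⟩ := hs
  obtain ⟨τ, hτ⟩ := ht
  refine ⟨Relations.formula₂ (((LPA.lhomWithConstants (Set.univ : Set M)).onRelation
    (PARel.lt : LPA.Relations 2))) σ τ, ?_⟩
  ext v
  simp only [Set.mem_ofPred_eq, Formula.realize_rel₂, hσ, hτ]
  rfl

theorem D.le {s t : (ι → M) → M} (hs : T s) (ht : T t) : D (fun v => s v ≤ t v) := by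
  have h := (D.lt ht hs).not
  refine Eq.mp (congrArg D ?_) h
  funext v
  simp

theorem D.eq {s t : (ι → M) → M} (hs : T s) (ht : T t) : D (fun v => s v = t v) := by
  obtain ⟨σ, hσ⟩ := hs
  obtain ⟨τ, hτ⟩ := ht
  refine ⟨σ.equal τ, ?_⟩
  ext v
  simp only [Set.mem_ofPred_eq, Formula.realize_equal, hσ, hτ]

theorem D.const (p : Prop) : D (fun _ : ι → M => p) := by
  by_cases hp : p
  · have h1 := Set.definable_univ (A := (Set.univ : Set M)) (L := LPA) (α := ι)
    refine Eq.mp (congrArg (Set.univ.Definable LPA) ?_) h1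
    ext v; simp [hp]
  · have h1 := Set.definable_empty (A := (Set.univ : Set M)) (L := LPA) (α := ι)
    refine Eq.mp (congrArg (Set.univ.Definable LPA) ?_) h1
    ext v; simp [hp]

end

/-- pairing. -/
def pr (c j : M) : M := (c + j) * (c + j) + c

theorem T.pr {ι : Type} {s t : (ι → M) → M} (hs : T s) (ht : T t) :
    T (fun v => pr (s v) (t v)) :=
  ((hs.add ht).mul (hs.add ht)).add hs

/-- `x` is standard. -/
def Std (x : M) : Prop := ∃ n : ℕ, (n : M) = x

section PA

variable [PeanoModel M]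

theorem definable₁_of {p : M → Prop} (h : D (fun v : Fin 1 → M => p (v 0))) :
    (Set.univ : Set M).Definable₁ LPA {x | p x} := h

theorem ind {p : M → Prop} (h : D (fun v : Fin 1 → M => p (v 0))) (h0 : p 0)
    (h1 : ∀ x, p x → p (x + 1)) (x : M) : p x :=
  PeanoModel.induction {x | p x} (definable₁_of h) h0 h1 x

theorem eq_zero_or_succ (x : M) : x = 0 ∨ ∃ y, x = y + 1 := by
  refine ind (p := fun x : M => x = (0 : M) ∨ ∃ y, x = y + 1) ?_ (Or.inl rfl) (fun x _ => Or.inr ⟨x, rfl⟩) x
  refine (D.eq (T.var 0) (T.const 0)).or (D.ex ?_)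
  exact D.eq (T.var _) ((T.var _).add (T.const 1))

theorem add_one_le {x y : M} (h : x < y) : x + 1 ≤ y := by
  obtain ⟨z, rfl⟩ := exists_add_of_le h.le
  rcases eq_zero_or_succ z with rfl | ⟨w, rfl⟩
  · simp at h
  · rw [← add_assoc, add_right_comm]
    exact le_self_add

theorem lt_add_one_iff {x y : M} : x < y + 1 ↔ x ≤ y := by
  constructor
  · intro h
    by_contra hlt
    exact absurd (add_one_le (not_le.1 hlt)) (not_le.2 h)
  · intro h
    exact lt_of_le_of_lt h (lt_add_of_pos_right y zero_lt_one)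

theorem std_of_le_nat {n : ℕ} {x : M} (h : x ≤ (n : M)) : ∃ k : ℕ, k ≤ n ∧ (k : M) = x := by
  induction n with
  | zero =>
    refine ⟨0, le_rfl, ?_⟩
    simp only [Nat.cast_zero] at h ⊢
    exact (le_antisymm h zero_le).symm
  | succ n ih =>
    rcases h.lt_or_eq with h | h
    · rw [Nat.cast_succ, lt_add_one_iff] at h
      obtain ⟨k, hk, hk'⟩ := ih h
      exact ⟨k, by omega, hk'⟩
    · exact ⟨n + 1, le_rfl, h.symm⟩

theorem Std.of_le {x y : M} (hy : Std y) (h : x ≤ y) : Std x := by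
  obtain ⟨n, rfl⟩ := hy
  obtain ⟨k, _, hk⟩ := std_of_le_nat h
  exact ⟨k, hk⟩

theorem nat_lt_of_not_std {x : M} (hx : ¬ Std x) (n : ℕ) : (n : M) < x := by
  by_contra h
  exact hx (Std.of_le ⟨n, rfl⟩ (not_lt.1 h))

theorem not_std_pred {x : M} (hx : ¬ Std x) : ∃ y, ¬ Std y ∧ x = y + 1 := by
  rcases eq_zero_or_succ x with rfl | ⟨y, rfl⟩
  · exact absurd ⟨0, by simp⟩ hx
  · refine ⟨y, ?_, rfl⟩
    rintro ⟨n, rfl⟩
    exact hx ⟨n + 1, by simp⟩

theorem exists_least {p : M → Prop} (h : D (fun v : Fin 1 → M => p (v 0))) (hne : ∃ x, p x) :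
    ∃ x, p x ∧ ∀ y, p y → x ≤ y := by
  by_contra hcon
  push Not at hcon
  have key : ∀ z : M, ∀ y, y ≤ z → ¬ p y := by
    refine ind (p := fun z => ∀ y, y ≤ z → ¬ p y) ?_ ?_ ?_
    · refine D.all ((D.le (T.var _) (T.var _)).imp (D.not ?_))
      exact Set.Definable.preimage_comp (fun _ : Fin 1 => (Sum.inr () : Fin 1 ⊕ Unit)) h
    · intro y hy hp
      obtain ⟨z, hz, hlt⟩ := hcon y hp
      exact absurd zero_le (not_le.2 (lt_of_lt_of_le hlt hy))
    · intro z hz y hy hp
      rcases hy.lt_or_eq with hy | rfl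
      · exact hz y (lt_add_one_iff.1 hy) hp
      · obtain ⟨w, hw, hlt⟩ := hcon _ hp
        exact hz w (lt_add_one_iff.1 hlt) hw
  obtain ⟨x, hx⟩ := hne
  exact key x x le_rfl hx

theorem pr_lt {c j s : M} (h : c + j < s) : pr c j < s * s := by
  have h1 : c + j + 1 ≤ s := add_one_le h
  have h2 : (c + j + 1) * (c + j + 1) ≤ s * s := mul_le_mul' h1 h1
  refine lt_of_lt_of_le ?_ h2
  have h3 : (c + j + 1) * (c + j + 1) = pr c j + (c + j + j + 1) := by
    unfold pr; ring
  rw [h3]
  refine lt_add_of_pos_right _ ?_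
  exact lt_of_lt_of_le zero_lt_one le_add_self

theorem pr_inj {c j c' j' : M} (h : pr c j = pr c' j') : c = c' ∧ j = j' := by
  have hs : c + j = c' + j' := by
    rcases lt_trichotomy (c + j) (c' + j') with hlt | heq | hgt
    · have h1 := pr_lt hlt
      have h2 : (c' + j') * (c' + j') ≤ pr c' j' := le_self_add
      rw [h] at h1
      exact absurd h2 (not_le.2 h1)
    · exact heq
    · have h1 := pr_lt hgt
      have h2 : (c + j) * (c + j) ≤ pr c j := le_self_add
      rw [← h] at h1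
      exact absurd h2 (not_le.2 h1)
  have hc : c = c' := by
    unfold pr at h
    rw [hs] at h
    exact add_left_cancel h
  subst hc
  exact ⟨rfl, add_left_cancel hs⟩

theorem nat_dvd_iff {n j : ℕ} : (∃ q : M, (j : M) = q * ((n : M) + 1)) ↔ (n + 1) ∣ j := by
  constructor
  · rintro ⟨q, hq⟩
    have hle : q ≤ (j : M) := by
      rw [hq]
      exact le_mul_of_one_le_right' le_add_self
    obtain ⟨k, _, rfl⟩ := std_of_le_nat hle
    have : (j : M) = ((k * (n + 1) : ℕ) : M) := by push_cast; exact hq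
    have h2 : j = k * (n + 1) := Nat.cast_injective this
    exact ⟨k, by rw [h2, mul_comm]⟩
  · rintro ⟨k, rfl⟩
    exact ⟨(k : M), by push_cast; ring⟩

end PA

end Q202.CPG
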