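import Pool.Agent.Q202.CPG.Gen

/-!
# The standard part is definable from a generic set, and a coded enumeration
-/

open FirstOrder FirstOrder.Language

namespace Q202.CPG

universe u v

variable {M : Type u} [CommSemiring M] [LinearOrder M]

/-- there is a gap of length `k` in `X`. -/
def W (X : Set M) (k : M) : Prop := ∃ a : M, ∀ x, x < k → a + x ∉ X

/-- eventually (for standard `j`) `X` contains the pair `(c, j)` iff `k + 1` divides `j`. -/
def E (X : Set M) (c k : M) : Prop :=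
  W X k ∧ ∃ j₀, W X j₀ ∧ ∀ j, W X j → ¬ j < j₀ → (pr c j ∈ X ↔ ∃ q, j = q * (k + 1))

theorem std_of_W [PeanoModel M] {X : Set M} (hX : StronglyCPGeneric X) {k : M} (hk : W X k) :
    Std k := by
  by_contra hns
  obtain ⟨a, ha⟩ := hk
  have hA : D (fun v : Fin 1 → M => a ≤ v 0 ∧ v 0 < a + k) :=
    (D.le (T.const a) (T.var 0)).and (D.lt (T.var 0) (T.const (a + k)))
  have hB : ∃ B ⊆ {v : Fin 1 → M | a ≤ v 0 ∧ v 0 < a + k}, Spread B := by
    refine ⟨Set.range (fun (m : ℕ) (_ : Fin 1) => a + (m : M)), ?_, ?_, ?_, ?_⟩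
    · rintro _ ⟨m, rfl⟩
      exact ⟨le_self_add, (add_lt_add_iff_left a).2 (nat_lt_of_not_std hns m)⟩
    · apply Set.infinite_range_of_injective
      intro m m' h
      have h1 : a + (m : M) = a + m' := congrFun h 0
      exact Nat.cast_injective (add_left_cancel h1)
    · rintro _ ⟨m, rfl⟩ i j _
      exact Subsingleton.elim _ _
    · rintro _ ⟨m, rfl⟩ _ ⟨m', rfl⟩ hne i j h
      exact hne (funext fun _ => h)
  obtain ⟨b, hb, hbX⟩ := hX 1 le_rfl {v | a ≤ v 0 ∧ v 0 < a + k} hA hB Set.univ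
  obtain ⟨x, hx⟩ := exists_add_of_le hb.1
  have hlt : x < k := by
    have h2 := hb.2
    rw [hx] at h2
    exact lt_of_add_lt_add_left h2
  exact ha x hlt (hx ▸ (hbX 0).2 (Set.mem_univ _))

theorem W_of_std [PeanoModel M] {X : Set M} (hX : StronglyCPGeneric X) {k : M} (hk : Std k) :
    W X k := by
  obtain ⟨n, rfl⟩ := hk
  rcases Nat.eq_zero_or_pos n with rfl | hn
  · refine ⟨0, fun x hx => ?_⟩
    rw [Nat.cast_zero] at hx
    exact absurd zero_le (not_le.2 hx)
  · have hA : D (fun v : Fin n → M => ∃ a, ∀ i : Fin n, v i = a + ((i : ℕ) : M)) :=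
      D.ex (D.forallF fun i => D.eq (T.var _) ((T.var _).add (T.const _)))
    have hB : ∃ B ⊆ {v : Fin n → M | ∃ a, ∀ i : Fin n, v i = a + ((i : ℕ) : M)}, Spread B := by
      refine ⟨Set.range (fun (m : ℕ) (i : Fin n) => ((m * n + i : ℕ) : M)), ?_, ?_, ?_, ?_⟩
      · rintro _ ⟨m, rfl⟩
        exact ⟨((m * n : ℕ) : M), fun i => by push_cast; rfl⟩
      · apply Set.infinite_range_of_injective
        intro m m' h
        have h1 := Nat.cast_injective (congrFun h ⟨0, hn⟩)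
        simp only [add_zero] at h1
        exact Nat.eq_of_mul_eq_mul_right hn h1
      · rintro _ ⟨m, rfl⟩ i j h
        have h1 := Nat.cast_injective h
        exact Fin.ext (by omega)
      · rintro _ ⟨m, rfl⟩ _ ⟨m', rfl⟩ hne i j h
        apply hne
        have h1 := Nat.cast_injective h
        have h2 : m = m' := by
          have e1 : (m * n + i) / n = m := by
            rw [mul_comm, Nat.mul_add_div hn, Nat.div_eq_of_lt i.2, add_zero]
          have e2 : (m' * n + j) / n = m' := by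
            rw [mul_comm, Nat.mul_add_div hn, Nat.div_eq_of_lt j.2, add_zero]
          rw [← e1, h1, e2]
        rw [h2]
    obtain ⟨b, hb, hbX⟩ := hX n hn {v | ∃ a, ∀ i : Fin n, v i = a + ((i : ℕ) : M)} hA hB ∅
    obtain ⟨a, ha⟩ := hb
    refine ⟨a, fun x hx => ?_⟩
    obtain ⟨j, _, rfl⟩ := std_of_le_nat hx.le
    have hj : j < n := Nat.cast_lt.1 hx
    have h1 := ha ⟨j, hj⟩
    have h2 := hbX ⟨j, hj⟩
    rw [h1] at h2
    exact fun h => (h2.1 h).elim

theorem eq_of_eventually_dvd {a b J : ℕ} (h : ∀ j, J ≤ j → (a + 1 ∣ j ↔ b + 1 ∣ j)) :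
    a = b := by
  have key : ∀ a b : ℕ, (∀ j, J ≤ j → (a + 1 ∣ j → b + 1 ∣ j)) → b + 1 ∣ a + 1 := by
    intro a b h
    have hJ : J ≤ (a + 1) * (J * (b + 1) + 1) :=
      calc J ≤ J * (b + 1) := Nat.le_mul_of_pos_right _ (Nat.succ_pos _)
        _ ≤ J * (b + 1) + 1 := Nat.le_succ _
        _ ≤ (a + 1) * (J * (b + 1) + 1) := Nat.le_mul_of_pos_left _ (Nat.succ_pos _)
    have h1 := h _ hJ ⟨_, rfl⟩
    have h2 : (a + 1) * (J * (b + 1) + 1) = (b + 1) * ((a + 1) * J) + (a + 1) := by ring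
    rw [h2] at h1
    exact (Nat.dvd_add_right ⟨_, rfl⟩).1 h1
  have h1 := key a b fun j hj => (h j hj).1
  have h2 := key b a fun j hj => (h j hj).2
  have := Nat.dvd_antisymm h1 h2
  omega

theorem exists_coded [PeanoModel M] [Countable M] (hns : ∃ x : M, ¬ Std x) :
    ∃ X : Set M, StronglyCPGeneric X ∧ (∀ c, ∃ k, E X c k) ∧
      ∀ c c' k, E X c k → E X c' k → c = c' := by
  obtain ⟨ι, hι⟩ := exists_injective_nat M
  let P : ℕ → Set M := fun n => {x | ∃ c, ι c = n ∧ ∃ j : ℕ, x = pr c (j : M)}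
  let Tg : ℕ → Set M := fun n => {x | ∃ c, ι c = n ∧ ∃ j : ℕ, (n + 1) ∣ j ∧ x = pr c (j : M)}
  obtain ⟨X, hX, htr⟩ := exists_generic P Tg (by
    intro i j hij
    rw [Set.disjoint_left]
    rintro x ⟨c, rfl, k, rfl⟩ ⟨c', rfl, k', h⟩
    exact hij (by rw [(pr_inj h).1])) (by
    intro n A hA hB k Q hQ
    have hC : {c : M | ι c < k}.Finite := (Set.finite_Iio k).preimage hι.injOn
    obtain ⟨b, hb, hinj, hbQ, hbC⟩ := exists_avoid hns hA hB hQ hC
    refine ⟨b, hb, hinj, hbQ, ?_⟩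
    rintro i j hj ⟨c, rfl, m, h⟩
    exact hbC i c hj m h)
  have hev : ∀ c : M, ∃ J : ℕ, ∀ j : ℕ, J ≤ j → (pr c (j : M) ∈ X ↔ ι c + 1 ∣ j) := by
    intro c
    obtain ⟨F, hF, hFX⟩ := htr (ι c)
    have hfin : {j : ℕ | pr c (j : M) ∈ F}.Finite := by
      refine hF.preimage ?_
      intro j _ j' _ h
      exact Nat.cast_injective (pr_inj h).2
    obtain ⟨J, hJ⟩ := hfin.bddAbove
    refine ⟨J + 1, fun j hj => ?_⟩
    have hn : pr c (j : M) ∉ F := by
      intro h
      have := hJ (show j ∈ {j : ℕ | pr c (j : M) ∈ F} from h)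
      omega
    rw [hFX _ ⟨c, rfl, j, rfl⟩ hn]
    constructor
    · rintro ⟨c', hc', j', hj', h⟩
      have := Nat.cast_injective (pr_inj h).2
      rwa [this]
    · intro h
      exact ⟨c, rfl, j, h, rfl⟩
  have hE : ∀ c : M, E X c ((ι c : ℕ) : M) := by
    intro c
    obtain ⟨J, hJ⟩ := hev c
    refine ⟨W_of_std hX ⟨_, rfl⟩, (J : M), W_of_std hX ⟨_, rfl⟩, ?_⟩
    intro j hj hjJ
    obtain ⟨j', rfl⟩ := std_of_W hX hj
    have hJj : J ≤ j' := by
      by_contra h
      exact hjJ (Nat.cast_lt.2 (not_le.1 h))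
    rw [hJ j' hJj, nat_dvd_iff]
  have hE' : ∀ c k : M, E X c k → k = ((ι c : ℕ) : M) := by
    rintro c k ⟨hk, j₀, hj₀, h⟩
    obtain ⟨k', rfl⟩ := std_of_W hX hk
    obtain ⟨J', rfl⟩ := std_of_W hX hj₀
    obtain ⟨J, hJ⟩ := hev c
    have : ι c = k' := by
      apply eq_of_eventually_dvd (J := max J J')
      intro j hj
      have h1 := hJ j (le_trans (le_max_left _ _) hj)
      have h2 := h (j : M) (W_of_std hX ⟨_, rfl⟩) (by
        rw [not_lt, Nat.cast_le]
        exact le_trans (le_max_right _ _) hj)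
      rw [← h1, h2, nat_dvd_iff]
    rw [this]
  refine ⟨X, hX, fun c => ⟨_, hE c⟩, ?_⟩
  intro c c' k h h'
  exact hι (Nat.cast_injective ((hE' c k h).symm.trans (hE' c' k h')))

theorem exists_generic_std [PeanoModel M] [Countable M] :
    ∃ X : Set M, StronglyCPGeneric X := by
  obtain ⟨X, hX, _⟩ := exists_generic (M := M) (fun _ => ∅) (fun _ => ∅)
    (fun _ _ _ => Set.disjoint_empty _) (by
      rintro n A hA ⟨B, hBA, hB⟩ k Q hQ
      obtain ⟨b, hb, hbQ⟩ := spread_avoid hB hQ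
      exact ⟨b, hBA hb, hB.2.1 b hb, hbQ, fun i j _ h => h⟩)
  exact ⟨X, hX⟩

end Q202.CPG
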