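import Mathlib.ModelTheory.Definability
import Mathlib.ModelTheory.ElementaryMaps
import Mathlib.Algebra.Order.Ring.Defs
import Mathlib.Algebra.Order.Monoid.Canonical.Defs

/-!
# Models of Peano arithmetic, the expansion by a unary predicate, strongly CP-generic sets
-/

open FirstOrder FirstOrder.Language

namespace Q202.CPG

universe u v

/-- The function symbols `0, 1, +, ·`. -/
inductive PAFunc : ℕ → Type
  | zero : PAFunc 0
  | one : PAFunc 0
  | add : PAFunc 2
  | mul : PAFunc 2

/-- The relation symbol `<`. -/
inductive PARel : ℕ → Type
  | lt : PARel 2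

/-- The relation symbols `<` and `U` (a unary predicate). -/
inductive PAURel : ℕ → Type
  | lt : PAURel 2
  | pred : PAURel 1

/-- The language `0, 1, +, ·, <` of Peano arithmetic. -/
abbrev LPA : Language.{0, 0} := ⟨PAFunc, PARel⟩

/-- The language of Peano arithmetic with one more unary predicate symbol `U`. -/
abbrev LPAU : Language.{0, 0} := ⟨PAFunc, PAURel⟩

/-- The interpretation of the function symbols. -/
def paFun {M : Type u} [CommSemiring M] : {n : ℕ} → PAFunc n → (Fin n → M) → M
  | _, .zero, _ => 0
  | _, .one, _ => 1
  | _, .add, v => v 0 + v 1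
  | _, .mul, v => v 0 * v 1

/-- A commutative semiring with a linear order as a structure in the language of Peano
arithmetic. -/
instance paStructure (M : Type u) [CommSemiring M] [LinearOrder M] : LPA.Structure M where
  funMap := fun f v => paFun f v
  RelMap := fun {n} (r : PARel n) v => match n, r, v with
    | _, .lt, v => v 0 < v 1

/-- The expansion `(M, X)` of `M` in which `U` is interpreted by `X`. -/
@[reducible] def expand {M : Type u} [CommSemiring M] [LinearOrder M] (X : Set M) :
    LPAU.Structure M where
  funMap := fun f v => paFun f v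
  RelMap := fun {n} (r : PAURel n) v => match n, r, v with
    | _, .lt, v => v 0 < v 1
    | _, .pred, v => v 0 ∈ X

/-- The elementary embeddings of `(M, X)` into `(N, Y)` in the language `0, 1, +, ·, <, U`. Such
an embedding `f` makes `(N, Y)` an elementary extension of `(M, X)`, which is proper if `f` is
not surjective. -/
abbrev ElemExt {M : Type u} {N : Type v} [CommSemiring M] [LinearOrder M] [CommSemiring N]
    [LinearOrder N] (X : Set M) (Y : Set N) : Type (max u v) :=
  @Language.ElementaryEmbedding LPAU M N (expand X) (expand Y)

/-- `M` is a model of Peano arithmetic: the axioms of (the nonnegative part of) an ordered ring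
and induction for all subsets of `M` that are definable with parameters in the language
`0, 1, +, ·, <`. -/
class PeanoModel (M : Type u) [CommSemiring M] [LinearOrder M] : Prop
    extends IsStrictOrderedRing M, CanonicallyOrderedAdd M where
  /-- induction for definable sets with parameters -/
  induction : ∀ S : Set M, (Set.univ : Set M).Definable₁ LPA S → (0 : M) ∈ S →
    (∀ x ∈ S, x + 1 ∈ S) → ∀ x, x ∈ S

variable {M : Type u}

/-- `B ⊆ Mⁿ` is spread: `B` is infinite, every tuple in `B` has pairwise distinct entries, and
any two distinct tuples in `B` have disjoint sets of entries. -/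
def Spread {n : ℕ} (B : Set (Fin n → M)) : Prop :=
  B.Infinite ∧ (∀ b ∈ B, Function.Injective b) ∧
    ∀ b ∈ B, ∀ c ∈ B, b ≠ c → ∀ i j, b i ≠ c j

/-- `X ⊆ M` is strongly CP-generic in `M`: for every `n ≥ 1`, every `D ⊆ Mⁿ` that is definable
with parameters in the language of arithmetic and contains a spread subset, and every set `I` of
indices, there is `b ∈ D` with `b i ∈ X ↔ i ∈ I` for all `i`. -/
def StronglyCPGeneric [CommSemiring M] [LinearOrder M] (X : Set M) : Prop :=
  ∀ n : ℕ, 1 ≤ n → ∀ D : Set (Fin n → M), (Set.univ : Set M).Definable LPA D →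
    (∃ B ⊆ D, Spread B) → ∀ I : Set (Fin n), ∃ b ∈ D, ∀ i, b i ∈ X ↔ i ∈ I

end Q202.CPG
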