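import Pool.Agent.Q202.CPG.Basic
import Mathlib.ModelTheory.Encoding

/-!
# Building a set that meets all the requirements and has prescribed traces on blocks
-/

open FirstOrder FirstOrder.Language

namespace Q202.CPG

universe u v

section build

variable {M : Type u}

theorem build (R : ℕ → Σ n : ℕ, Set (Fin n → M)) (I : ∀ k, Set (Fin (R k).1)) (P : ℕ → Set M)
    (Tg : ℕ → Set M) (hP : ∀ i j, i ≠ j → Disjoint (P i) (P j))
    (hav : ∀ k (Q : Set M), Q.Finite → ∃ b ∈ (R k).2, Function.Injective b ∧ (∀ i, b i ∉ Q) ∧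
      ∀ i, ∀ j < k, b i ∉ P j) :
    ∃ X : Set M, (∀ k, ∃ b ∈ (R k).2, ∀ i, b i ∈ X ↔ i ∈ I k) ∧
      ∀ j, ∃ F : Set M, F.Finite ∧ ∀ x ∈ P j, x ∉ F → (x ∈ X ↔ x ∈ Tg j) := by
  have _ : ∀ k, Nonempty (Fin (R k).1 → M) := fun k => ⟨(hav k ∅ Set.finite_empty).choose⟩
  choose! pick hpick using fun k (Q : Set M) (hQ : Q.Finite) => hav k Q hQ
  let st : ℕ → Set M := fun k => Nat.rec ∅ (fun k Q => Q ∪ Set.range (pick k Q)) k
  have st_succ : ∀ k, st (k + 1) = st k ∪ Set.range (pick k (st k)) := fun k => rfl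
  have hfin : ∀ k, (st k).Finite := by
    intro k
    induction k with
    | zero => exact Set.finite_empty
    | succ k ih => rw [st_succ]; exact ih.union (Set.finite_range _)
  have hmono : ∀ k l, k ≤ l → st k ⊆ st l := by
    intro k l h
    induction l, h using Nat.le_induction with
    | base => exact le_rfl
    | succ l _ ih => rw [st_succ]; exact ih.trans Set.subset_union_left
  let b : ∀ k, Fin (R k).1 → M := fun k => pick k (st k)
  have hb : ∀ k, b k ∈ (R k).2 ∧ Function.Injective (b k) ∧ (∀ i, b k i ∉ st k) ∧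
      ∀ i, ∀ j < k, b k i ∉ P j := fun k => hpick k (st k) (hfin k)
  have hrange : ∀ k i, b k i ∈ st (k + 1) := fun k i => by
    rw [st_succ]; exact Or.inr ⟨i, rfl⟩
  have hdis : ∀ k l i j, b k i = b l j → k = l := by
    intro k l i j h
    rcases lt_trichotomy k l with hkl | hkl | hkl
    · exact absurd (hmono (k + 1) l hkl (hrange k i)) (h ▸ (hb l).2.2.1 j)
    · exact hkl
    · exact absurd (hmono (l + 1) k hkl (hrange l j)) (h ▸ (hb k).2.2.1 i)
  refine ⟨{x | (∃ k i, b k i = x ∧ i ∈ I k) ∨ ((∀ k i, b k i ≠ x) ∧ ∃ j, x ∈ P j ∧ x ∈ Tg j)},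
    ?_, ?_⟩
  · intro k
    refine ⟨b k, (hb k).1, fun i => ⟨?_, fun hi => Or.inl ⟨k, i, rfl, hi⟩⟩⟩
    rintro (⟨l, j, hlj, hj⟩ | ⟨h, _⟩)
    · obtain rfl := hdis _ _ _ _ hlj
      rwa [← (hb l).2.1 hlj]
    · exact absurd rfl (h k i)
  · intro j
    refine ⟨st (j + 1), hfin (j + 1), ?_⟩
    intro x hx hxn
    have hno : ∀ k i, b k i ≠ x := by
      rintro k i rfl
      by_cases hk : k ≤ j
      · exact hxn (hmono (k + 1) (j + 1) (by omega) (hrange k i))
      · exact (hb k).2.2.2 i j (by omega) hx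
    constructor
    · rintro (⟨k, i, h, _⟩ | ⟨_, j', hj', hT⟩)
      · exact absurd h (hno k i)
      · have : j' = j := by
          by_contra hne
          exact Set.disjoint_left.1 (hP _ _ hne) hj' hx
        rwa [← this]
    · intro hT
      exact Or.inr ⟨hno, j, hx, hT⟩

end build

section avoid

variable {M : Type u}

theorem spread_avoid {n : ℕ} {B : Set (Fin n → M)} (hB : Spread B) {F : Set M} (hF : F.Finite) :
    ∃ b ∈ B, ∀ i, b i ∉ F := by
  by_contra hcon
  push Not at hcon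
  apply hB.1
  have hsub : B ⊆ ⋃ x ∈ F, {b | b ∈ B ∧ ∃ i, b i = x} := by
    intro b hb
    obtain ⟨i, hi⟩ := hcon b hb
    simp only [Set.mem_iUnion]
    exact ⟨b i, hi, hb, i, rfl⟩
  refine Set.Finite.subset (hF.biUnion ?_) hsub
  intro x _
  apply Set.Subsingleton.finite
  rintro b ⟨hb, i, rfl⟩ c ⟨hc, j, hj⟩
  by_contra hne
  exact hB.2.2 b hb c hc hne i j hj.symm

variable [CommSemiring M] [LinearOrder M] [PeanoModel M]

theorem exists_avoid (hns : ∃ x : M, ¬ Std x) {n : ℕ} {A : Set (Fin n → M)}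
    (hA : (Set.univ : Set M).Definable LPA A) (hB : ∃ B ⊆ A, Spread B) {Q : Set M}
    (hQ : Q.Finite) {C : Set M} (hC : C.Finite) :
    ∃ b ∈ A, Function.Injective b ∧ (∀ i, b i ∉ Q) ∧ ∀ i, ∀ c ∈ C, ∀ j : ℕ, b i ≠ pr c (j : M) := by
  by_contra hcon
  push Not at hcon
  let p : M → Prop := fun z => ∀ b : Fin n → M, b ∈ A → (∀ i k, b i = b k → i = k) →
    (∀ i, ¬ ∃ q ∈ Q, b i = q) → ∃ i, ∃ c ∈ C, ∃ j, j ≤ z ∧ b i = pr c j
  have hp : D (fun v : Fin 1 → M => p (v 0)) := by
    refine D.alls (D.imp ?_ (D.imp ?_ (D.imp ?_ ?_)))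
    · exact Set.Definable.preimage_comp (fun i : Fin n => (Sum.inr i : Fin 1 ⊕ Fin n)) hA
    · exact D.forallF fun i => D.forallF fun k => (D.eq (T.var _) (T.var _)).imp (D.const _)
    · exact D.forallF fun i => D.not (D.existsS hQ fun q => D.eq (T.var _) (T.const q))
    · refine D.existsF fun i => D.existsS hC fun c => D.ex ?_
      exact (D.le (T.var _) (T.var _)).and (D.eq (T.var _) (T.pr (T.const c) (T.var _)))
  have hns' : ∀ z : M, ¬ Std z → p z := by
    intro z hz b hb hinj hbQ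
    obtain ⟨i, c, hc, j, hj⟩ := hcon b hb (fun i k h => hinj i k h)
      (fun i hi => hbQ i ⟨_, hi, rfl⟩)
    exact ⟨i, c, hc, (j : M), (nat_lt_of_not_std hz j).le, hj⟩
  obtain ⟨z, hz, hmin⟩ := exists_least hp (hns.imp hns')
  have hstd : Std z := by
    by_contra hz'
    obtain ⟨y, hy, rfl⟩ := not_std_pred hz'
    exact absurd (hmin y (hns' y hy)) (not_le.2 (lt_add_of_pos_right y zero_lt_one))
  obtain ⟨k, rfl⟩ := hstd
  obtain ⟨B, hBA, hB⟩ := hB
  have hF : (Q ∪ ⋃ c ∈ C, ⋃ j ∈ Set.Iic k, {pr c (j : M)}).Finite := by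
    refine hQ.union (hC.biUnion fun c _ => (Set.finite_Iic k).biUnion fun j _ => ?_)
    exact Set.finite_singleton _
  obtain ⟨b, hb, hbF⟩ := spread_avoid hB hF
  obtain ⟨i, c, hc, j, hj, hij⟩ := hz b (hBA hb) (fun i k h => hB.2.1 b hb h)
    (fun i ⟨q, hq, h⟩ => hbF i (Or.inl (h ▸ hq)))
  obtain ⟨j', hj', rfl⟩ := std_of_le_nat hj
  apply hbF i
  right
  simp only [Set.mem_iUnion]
  exact ⟨c, hc, j', hj', hij⟩

end avoid

section enum

variable (M : Type u) [CommSemiring M] [LinearOrder M]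

/-- the requirements. -/
abbrev Req : Type u := Σ n : ℕ, {A : Set (Fin n → M) //
  (Set.univ : Set M).Definable LPA A ∧ ∃ B ⊆ A, Spread B} × Set (Fin n)

instance (n : ℕ) : Countable (PAFunc n) := by
  refine ⟨⟨fun f => match f with
    | .zero => 0
    | .one => 1
    | .add => 2
    | .mul => 3, ?_⟩⟩
  intro f g h
  cases f <;> cases g <;> simp_all

instance (n : ℕ) : Countable (PARel n) := by
  refine ⟨⟨fun _ => 0, ?_⟩⟩
  intro f g _
  cases f; cases g; rfl

instance : Countable LPA.Symbols := by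
  have _ : Countable (Σ l, LPA.Functions l) := inferInstanceAs (Countable (Σ l, PAFunc l))
  have _ : Countable (Σ l, LPA.Relations l) := inferInstanceAs (Countable (Σ l, PARel l))
  exact inferInstanceAs (Countable ((Σ l, LPA.Functions l) ⊕ (Σ l, LPA.Relations l)))

instance [Countable M] (n : ℕ) :
    Countable {A : Set (Fin n → M) // (Set.univ : Set M).Definable LPA A} := by
  have hc : Countable (LPA[[(Set.univ : Set M)]].Formula (Fin n)) := inferInstance
  let f : LPA[[(Set.univ : Set M)]].Formula (Fin n) →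
      {A : Set (Fin n → M) // (Set.univ : Set M).Definable LPA A} :=
    fun φ => ⟨Set.ofPred φ.Realize, φ, rfl⟩
  have hf : Function.Surjective f := by
    rintro ⟨A, φ, rfl⟩
    exact ⟨φ, rfl⟩
  exact hf.countable

instance [Countable M] : Countable (Req M) := by
  have _ : ∀ n : ℕ, Countable ({A : Set (Fin n → M) //
      (Set.univ : Set M).Definable LPA A ∧ ∃ B ⊆ A, Spread B} × Set (Fin n)) := by
    intro n
    have _ : Countable {A : Set (Fin n → M) //
        (Set.univ : Set M).Definable LPA A ∧ ∃ B ⊆ A, Spread B} := by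
      let g : {A : Set (Fin n → M) // (Set.univ : Set M).Definable LPA A ∧ ∃ B ⊆ A, Spread B} →
          {A : Set (Fin n → M) // (Set.univ : Set M).Definable LPA A} :=
        fun A => ⟨A.1, A.2.1⟩
      have hg : Function.Injective g := by
        intro A B h
        have h1 : (g A).1 = (g B).1 := congrArg Subtype.val h
        exact Subtype.ext h1
      exact hg.countable
    infer_instance
  infer_instance

theorem req_nonempty [IsStrictOrderedRing M] : Nonempty (Req M) := by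
  refine ⟨⟨1, ⟨Set.univ, Set.definable_univ, Set.range (fun (m : ℕ) (_ : Fin 1) => (m : M)),
    Set.subset_univ _, ?_, ?_, ?_⟩, ∅⟩⟩
  · apply Set.infinite_range_of_injective
    intro m m' h
    exact Nat.cast_injective (congrFun h 0)
  · rintro _ ⟨m, rfl⟩ i j _
    exact Subsingleton.elim _ _
  · rintro _ ⟨m, rfl⟩ _ ⟨m', rfl⟩ hne i j h
    exact hne (funext fun _ => h)

end enum

section exist

variable {M : Type u} [CommSemiring M] [LinearOrder M]

/-- a generic set with prescribed traces on disjoint blocks. -/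
theorem exists_generic [IsStrictOrderedRing M] [Countable M] (P : ℕ → Set M) (Tg : ℕ → Set M)
    (hP : ∀ i j, i ≠ j → Disjoint (P i) (P j))
    (hav : ∀ (n : ℕ) (A : Set (Fin n → M)), (Set.univ : Set M).Definable LPA A →
      (∃ B ⊆ A, Spread B) → ∀ (k : ℕ) (Q : Set M), Q.Finite →
      ∃ b ∈ A, Function.Injective b ∧ (∀ i, b i ∉ Q) ∧ ∀ i, ∀ j < k, b i ∉ P j) :
    ∃ X : Set M, StronglyCPGeneric X ∧
      ∀ j, ∃ F : Set M, F.Finite ∧ ∀ x ∈ P j, x ∉ F → (x ∈ X ↔ x ∈ Tg j) := by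
  have _ := req_nonempty M
  obtain ⟨e, he⟩ := exists_surjective_nat (Req M)
  obtain ⟨X, hX1, hX2⟩ := build (fun k => ⟨(e k).1, (e k).2.1.1⟩) (fun k => (e k).2.2) P Tg hP
    (fun k Q hQ => hav _ _ (e k).2.1.2.1 (e k).2.1.2.2 k Q hQ)
  refine ⟨X, ?_, hX2⟩
  intro n _ A hA hB I
  obtain ⟨k, hk⟩ := he ⟨n, ⟨A, hA, hB⟩, I⟩
  have h1 := hX1 k
  rw [hk] at h1
  exact h1

end exist

end Q202.CPG
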