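import Pool.Agent.Q202.CPG.Code

/-!
# Formulas in the language with the unary predicate, and the main theorem
-/

open FirstOrder FirstOrder.Language

namespace Q202.CPG

universe u v

/-- terms. -/
abbrev BT (n : ℕ) := LPAU.Term (Empty ⊕ Fin n)

/-- formulas. -/
abbrev BF (n : ℕ) := LPAU.BoundedFormula Empty n

/-- weakening of a term. -/
def up {n : ℕ} (t : BT n) : BT (n + 1) := t.relabel (Sum.map id Fin.castSucc)

/-- the last variable. -/
def nv (n : ℕ) : BT (n + 1) := Term.var (Sum.inr (Fin.last n))

/-- sum of terms. -/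
def tadd {n : ℕ} (s t : BT n) : BT n := Functions.apply₂ (PAFunc.add : LPAU.Functions 2) s t

/-- product of terms. -/
def tmul {n : ℕ} (s t : BT n) : BT n := Functions.apply₂ (PAFunc.mul : LPAU.Functions 2) s t

/-- the term `1`. -/
def tone {n : ℕ} : BT n := Constants.term (PAFunc.one : LPAU.Constants)

/-- pairing of terms. -/
def tpr {n : ℕ} (s t : BT n) : BT n := tadd (tmul (tadd s t) (tadd s t)) s

/-- order. -/
def flt {n : ℕ} (s t : BT n) : BF n := Relations.boundedFormula₂ (PAURel.lt : LPAU.Relations 2) s t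

/-- the unary predicate. -/
def fpred {n : ℕ} (s : BT n) : BF n := Relations.boundedFormula₁ (PAURel.pred : LPAU.Relations 1) s

/-- the formula for `W`. -/
def fW {n : ℕ} (k : BT n) : BF n :=
  (((flt (nv (n + 1)) (up (up k))).imp (fpred (tadd (up (nv n)) (nv (n + 1)))).not).all).ex

/-- the formula for `E`. -/
def fE {n : ℕ} (c k : BT n) : BF n :=
  fW k ⊓ (fW (nv n) ⊓ ((fW (nv (n + 1))).imp ((flt (nv (n + 1)) (up (nv n))).not.imp
    ((fpred (tpr (up (up c)) (nv (n + 1)))).iff
      (((up (nv (n + 1))).bdEqual (tmul (nv (n + 2)) (tadd (up (up (up k))) tone))).ex)))).all).ex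

section sem

variable {M : Type u} [CommSemiring M] [LinearOrder M] (X : Set M)

/-- value of a term. -/
def val {n : ℕ} (xs : Fin n → M) (t : BT n) : M :=
  letI := expand X
  t.realize (Sum.elim (default : Empty → M) xs)

/-- truth of a formula. -/
def Sat {n : ℕ} (xs : Fin n → M) (φ : BF n) : Prop :=
  letI := expand X
  φ.Realize (default : Empty → M) xs

variable {X} {n : ℕ} {xs : Fin n → M}

theorem val_up (x : M) (t : BT n) : val X (Fin.snoc xs x : Fin (n + 1) → M) (up t) = val X xs t := by
  letI := expand X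
  unfold val up
  rw [Term.realize_relabel]
  congr 1
  funext i
  rcases i with i | i
  · exact i.elim
  · simp only [Function.comp_apply, Sum.map_inr, Sum.elim_inr]
    exact Fin.snoc_castSucc (α := fun _ => M) x xs i

theorem val_nv (x : M) : val X (Fin.snoc xs x : Fin (n + 1) → M) (nv n) = x := by
  letI := expand X
  unfold val nv
  simp only [Term.realize_var, Sum.elim_inr]
  exact Fin.snoc_last (α := fun _ => M) x xs

theorem val_add (s t : BT n) : val X xs (tadd s t) = val X xs s + val X xs t := by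
  letI := expand X
  unfold val tadd
  rw [Term.realize_functions_apply₂]
  rfl

theorem val_mul (s t : BT n) : val X xs (tmul s t) = val X xs s * val X xs t := by
  letI := expand X
  unfold val tmul
  rw [Term.realize_functions_apply₂]
  rfl

theorem val_one : val X xs tone = 1 := by
  letI := expand X
  unfold val tone
  rw [Term.realize_constants]
  rfl

theorem val_pr (s t : BT n) : val X xs (tpr s t) = pr (val X xs s) (val X xs t) := by
  unfold tpr pr
  simp only [val_add, val_mul]

theorem sat_lt (s t : BT n) : Sat X xs (flt s t) ↔ val X xs s < val X xs t := by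
  letI := expand X
  unfold Sat flt
  rw [BoundedFormula.realize_rel₂]
  rfl

theorem sat_pred (s : BT n) : Sat X xs (fpred s) ↔ val X xs s ∈ X := by
  letI := expand X
  unfold Sat fpred
  rw [BoundedFormula.realize_rel₁]
  rfl

theorem sat_eq (s t : BT n) : Sat X xs (s.bdEqual t) ↔ val X xs s = val X xs t := by
  letI := expand X
  unfold Sat
  rw [BoundedFormula.realize_bdEqual]
  rfl

theorem sat_imp (φ ψ : BF n) : Sat X xs (φ.imp ψ) ↔ (Sat X xs φ → Sat X xs ψ) := by
  letI := expand X
  unfold Sat
  rw [BoundedFormula.realize_imp]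

theorem sat_not (φ : BF n) : Sat X xs φ.not ↔ ¬ Sat X xs φ := by
  letI := expand X
  unfold Sat
  rw [BoundedFormula.realize_not]

theorem sat_inf (φ ψ : BF n) : Sat X xs (φ ⊓ ψ) ↔ Sat X xs φ ∧ Sat X xs ψ := by
  letI := expand X
  unfold Sat
  rw [BoundedFormula.realize_inf]

theorem sat_iff (φ ψ : BF n) : Sat X xs (φ.iff ψ) ↔ (Sat X xs φ ↔ Sat X xs ψ) := by
  letI := expand X
  unfold Sat
  rw [BoundedFormula.realize_iff]

theorem sat_all (φ : BF (n + 1)) :
    Sat X xs φ.all ↔ ∀ x : M, Sat X (Fin.snoc xs x : Fin (n + 1) → M) φ := by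
  letI := expand X
  unfold Sat
  rw [BoundedFormula.realize_all]

theorem sat_ex (φ : BF (n + 1)) :
    Sat X xs φ.ex ↔ ∃ x : M, Sat X (Fin.snoc xs x : Fin (n + 1) → M) φ := by
  letI := expand X
  unfold Sat
  rw [BoundedFormula.realize_ex]

theorem sat_W (k : BT n) : Sat X xs (fW k) ↔ W X (val X xs k) := by
  unfold fW W
  simp only [sat_ex, sat_all, sat_imp, sat_not, sat_lt, sat_pred, val_add, val_up, val_nv]

theorem sat_E (c k : BT n) : Sat X xs (fE c k) ↔ E X (val X xs c) (val X xs k) := by
  unfold fE E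
  simp only [sat_ex, sat_all, sat_imp, sat_not, sat_inf, sat_iff, sat_eq, sat_lt, sat_pred,
    sat_W, val_add, val_mul, val_one, val_pr, val_up, val_nv]

end sem

section main

variable {M : Type u} [CommSemiring M] [LinearOrder M] {X : Set M}
variable {N : Type v} [CommSemiring N] [LinearOrder N] {Y : Set N}

theorem sat_map (f : ElemExt X Y) {n : ℕ} (xs : Fin n → M) (φ : BF n) :
    Sat Y (fun i => f (xs i)) φ ↔ Sat X xs φ := by
  letI := expand X
  letI := expand Y
  have h := f.map_boundedFormula φ (default : Empty → M) xs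
  unfold Sat
  rw [← h]
  have h1 : (f ∘ (default : Empty → M)) = (default : Empty → N) :=
    Subsingleton.elim _ _
  rw [h1]
  rfl

theorem map_nat (f : ElemExt X Y) (n : ℕ) : f (n : M) = (n : N) := by
  letI := expand X
  letI := expand Y
  have h0 : f (0 : M) = 0 := by
    have := f.map_fun (PAFunc.zero : LPAU.Functions 0) default
    exact this
  have h1 : f (1 : M) = 1 := by
    have := f.map_fun (PAFunc.one : LPAU.Functions 0) default
    exact this
  have hadd : ∀ x y : M, f (x + y) = f x + f y := by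
    intro x y
    have := f.map_fun (PAFunc.add : LPAU.Functions 2) ![x, y]
    exact this
  induction n with
  | zero => simpa using h0
  | succ n ih =>
    rw [Nat.cast_succ, hadd, ih, h1, Nat.cast_succ]

variable [PeanoModel N]

theorem surjective_of_std (f : ElemExt X Y) (hX : ∀ k, W X k)
    (hXs : ∀ x : M, Std x) (hY : StronglyCPGeneric Y) : Function.Surjective f := by
  have h1 : Sat X (default : Fin 0 → M) (fW (nv 0)).all := by
    rw [sat_all]
    intro x
    rw [sat_W]
    exact hX _
  rw [← sat_map f, sat_all] at h1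
  intro y
  have h2 := (sat_W (nv 0)).1 (h1 y)
  rw [val_nv] at h2
  obtain ⟨n, rfl⟩ := std_of_W hY h2
  exact ⟨((n : M) : M), map_nat f n⟩

theorem surjective_of_coded (f : ElemExt X Y) (h1 : ∀ c, ∃ k, E X c k)
    (h2 : ∀ c c' k, E X c k → E X c' k → c = c') (hY : StronglyCPGeneric Y) :
    Function.Surjective f := by
  have s1 : Sat X (default : Fin 0 → M) ((fE (up (nv 0)) (nv 1)).ex).all := by
    simp only [sat_all, sat_ex, sat_E, val_up, val_nv]
    exact h1
  have s2 : Sat X (default : Fin 0 → M)
      (((((fE (up (up (nv 0))) (nv 2)).imp ((fE (up (nv 1)) (nv 2)).imp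
        ((up (up (nv 0))).bdEqual (up (nv 1)))))).all).all).all := by
    simp only [sat_all, sat_imp, sat_E, sat_eq, val_up, val_nv]
    exact h2
  rw [← sat_map f] at s1 s2
  simp only [sat_all, sat_ex, sat_E, val_up, val_nv] at s1
  simp only [sat_all, sat_imp, sat_E, sat_eq, val_up, val_nv] at s2
  intro y
  obtain ⟨k, hk⟩ := s1 y
  obtain ⟨n, rfl⟩ := std_of_W hY hk.1
  have s3 : Sat Y (fun i : Fin 1 => f ((fun _ : Fin 1 => (n : M)) i))
      (fE (nv 1) (up (nv 0))).ex := by
    rw [sat_ex]
    refine ⟨y, ?_⟩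
    rw [sat_E, val_nv, val_up]
    have : val Y (fun i : Fin 1 => f ((fun _ : Fin 1 => (n : M)) i)) (nv 0)
        = (n : N) := map_nat f n
    rw [this]
    exact hk
  rw [sat_map f (fun _ : Fin 1 => (n : M)), sat_ex] at s3
  obtain ⟨x, hx⟩ := s3
  rw [sat_E, val_nv, val_up] at hx
  have hx' : Sat X (![x, (n : M)] : Fin 2 → M) (fE (up (nv 0)) (nv 1)) := by
    rw [sat_E]
    exact hx
  rw [← sat_map f, sat_E] at hx'
  have e1 : val Y (fun i => (f ((![x, (n : M)] : Fin 2 → M) i) : N)) (nv 1) = (n : N) :=
    map_nat f n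
  rw [e1] at hx'
  refine ⟨x, ?_⟩
  exact s2 (f x) y (n : N) hx' hk

end main

/-- the main theorem. -/
theorem main (M : Type u) [CommSemiring M] [LinearOrder M] [PeanoModel M] [Countable M] :
    ∃ X : Set M, StronglyCPGeneric X ∧
      ∀ (N : Type v) [CommSemiring N] [LinearOrder N] [PeanoModel N] (Y : Set N)
        (f : ElemExt X Y), StronglyCPGeneric Y → Function.Surjective f := by
  by_cases hns : ∃ x : M, ¬ Std x
  · obtain ⟨X, hX, h1, h2⟩ := exists_coded hns
    exact ⟨X, hX, fun N _ _ _ Y f hY => surjective_of_coded f h1 h2 hY⟩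
  · push Not at hns
    obtain ⟨X, hX⟩ := exists_generic_std (M := M)
    exact ⟨X, hX, fun N _ _ _ Y f hY =>
      surjective_of_std f (fun k => W_of_std hX (hns k)) hns hY⟩

end Q202.CPG
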